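import Pool.Agent.Helper75.Slab.Goals

/-!
Packet SLAB-FL3 of MP_beb0a8_an: the flow maps are onto.
-/

set_option autoImplicit false

open Set Pool.Agent.Helper75.Flow

namespace Pool.Agent.Helper83.Slab.FL3

theorem thm (h1 : G_FL1) : G_FL3 := by
  intro t K u φ ht hL hφ s hs Y
  obtain ⟨hK, hc, hlip⟩ := hL
  have hmaps : ∀ τ ∈ Icc (0 : ℝ) s, s - τ ∈ Icc (0 : ℝ) t := by
    intro τ hτ
    exact ⟨by linarith [hτ.2], by linarith [hτ.1, hs.2]⟩
  have hmaps' : ∀ τ ∈ Icc (0 : ℝ) s, s - τ ∈ Icc (0 : ℝ) s := by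
    intro τ hτ
    exact ⟨by linarith [hτ.2], by linarith [hτ.1]⟩
  have hsub : Icc (0 : ℝ) s ⊆ Icc (0 : ℝ) t := Icc_subset_Icc le_rfl hs.2
  have hw : LipField s K (fun τ x => -u (s - τ) x) := by
    refine ⟨hK, ?_, ?_⟩
    · have hcm : Continuous (fun z : ℝ × Pool.Agent.Helper75.Flow.E => (s - z.1, z.2)) := by
        fun_prop
      have := hc.comp (hcm.continuousOn (s := Icc 0 s ×ˢ univ)) (by
        intro z hz
        exact ⟨hmaps z.1 hz.1, mem_univ _⟩)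
      exact this.neg
    · intro τ hτ x y
      have h2 : -u (s - τ) x - -u (s - τ) y = -(u (s - τ) x - u (s - τ) y) := by abel
      rw [h2, norm_neg]
      exact hlip (s - τ) (hmaps τ hτ) x y
  obtain ⟨ψ, hψ0, hψ⟩ := h1 s K _ hs.1 hw
  refine ⟨ψ s Y, ?_⟩
  have hy : ∀ τ ∈ Icc (0 : ℝ) s, HasDerivWithinAt (fun τ => ψ (s - τ) Y) (u τ (ψ (s - τ) Y))
      (Icc 0 s) τ := by
    intro τ hτ
    have ha := hψ Y (s - τ) (hmaps' τ hτ)
    have hb : HasDerivWithinAt (fun τ : ℝ => s - τ) (-1) (Icc 0 s) τ := by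
      simpa using (hasDerivWithinAt_id τ (Icc 0 s)).const_sub s
    have hcc := HasDerivWithinAt.scomp τ ha hb hmaps'
    have e1 : (-1 : ℝ) • (-u (s - (s - τ)) (ψ (s - τ) Y)) = u τ (ψ (s - τ) Y) := by
      rw [sub_sub_cancel]
      simp
    rw [e1] at hcc
    exact hcc
  have hx : ∀ τ ∈ Icc (0 : ℝ) s, HasDerivWithinAt (fun τ => φ τ (ψ s Y)) (u τ (φ τ (ψ s Y)))
      (Icc 0 s) τ := fun τ hτ => (hφ.2 (ψ s Y) τ (hsub hτ)).mono hsub
  have huniq : EqOn (fun τ => φ τ (ψ s Y)) (fun τ => ψ (s - τ) Y) (Icc 0 s) := by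
    refine ODE_solution_unique_of_mem_Icc_right (v := u) (s := fun _ => univ)
      (K := ⟨K, hK⟩) ?_ ?_ ?_ (fun _ _ => mem_univ _) ?_ ?_ (fun _ _ => mem_univ _) ?_
    · intro τ hτ
      refine LipschitzOnWith.of_dist_le_mul fun x _ y _ => ?_
      rw [dist_eq_norm, dist_eq_norm]
      exact hlip τ (hsub ⟨hτ.1, hτ.2.le⟩) x y
    · exact fun τ hτ => (hx τ hτ).continuousWithinAt
    · intro τ hτ
      exact (hx τ ⟨hτ.1, hτ.2.le⟩).mono_of_mem_nhdsWithin (Icc_mem_nhdsGE_of_mem hτ)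
    · exact fun τ hτ => (hy τ hτ).continuousWithinAt
    · intro τ hτ
      exact (hy τ ⟨hτ.1, hτ.2.le⟩).mono_of_mem_nhdsWithin (Icc_mem_nhdsGE_of_mem hτ)
    · show φ 0 (ψ s Y) = ψ (s - 0) Y
      rw [hφ.1, sub_zero]
  have := huniq (right_mem_Icc.2 hs.1)
  simp only [sub_self] at this
  rw [this, hψ0]

end Pool.Agent.Helper83.Slab.FL3
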